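import Mathlib

namespace Pool.Agent.H734Az

open Finset Polynomial

/-- coefficient of `X ^ t` in `(1 + X) ^ a (1 - X) ^ c` -/
noncomputable def cf (a c t : ℕ) : ℚ := ((1 + X) ^ a * (1 - X) ^ c : ℚ[X]).coeff t

theorem cf_rec (a c t : ℕ) : cf a (c + 2) (t + 1) = cf (a + 2) c (t + 1) - 4 * cf a c t := by
  have h : ((1 + X) ^ a * (1 - X) ^ (c + 2) : ℚ[X]) =
      (1 + X) ^ (a + 2) * (1 - X) ^ c - C 4 * (X * ((1 + X) ^ a * (1 - X) ^ c)) := by
    rw [show (C (4 : ℚ)) = (4 : ℚ[X]) from rfl]
    ring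
  unfold cf
  rw [h, coeff_sub, coeff_C_mul, coeff_X_mul]

theorem cf_zero (a t : ℕ) : cf a 0 t = (a.choose t : ℚ) := by
  unfold cf
  rw [pow_zero, mul_one, coeff_one_add_X_pow]

theorem cf_one (a t : ℕ) : cf a 1 (t + 1) = (a.choose (t + 1) : ℚ) - a.choose t := by
  unfold cf
  rw [pow_one, mul_sub, mul_one, coeff_sub, mul_comm, coeff_X_mul, coeff_one_add_X_pow,
    coeff_one_add_X_pow]

/-- central binomial coefficients -/
def b (j : ℕ) : ℚ := (Nat.centralBinom j : ℚ)

def ch (i j : ℕ) : ℚ := ((i + j).choose i : ℚ)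

theorem b_succ (j : ℕ) : ((j : ℚ) + 1) * b (j + 1) = 2 * (2 * j + 1) * b j := by
  unfold b
  exact_mod_cast Nat.succ_mul_centralBinom_succ j

theorem b_pos (j : ℕ) : 0 < b j := by
  unfold b; exact_mod_cast Nat.centralBinom_pos j

theorem ch_pos (i j : ℕ) : 0 < ch i j := by
  unfold ch; exact_mod_cast Nat.choose_pos (by omega)

theorem ch_succ_left (i j : ℕ) : ch (i + 1) j * (i + 1) = ch i j * (i + j + 1) := by
  unfold ch
  have := Nat.add_one_mul_choose_eq (i + j) i
  rw [show i + 1 + j = i + j + 1 from by omega]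
  have h : (((i + j + 1 : ℕ) : ℚ) * ((i + j).choose i : ℚ)) = ((i + j + 1).choose (i + 1) : ℚ) * ((i + 1 : ℕ) : ℚ) := by
    exact_mod_cast this
  push_cast at h
  linarith

theorem ch_comm (i j : ℕ) : ch i j = ch j i := by
  unfold ch
  rw [Nat.choose_symm_add, add_comm]

theorem ch_succ_right (i j : ℕ) : ch i (j + 1) * (j + 1) = ch i j * (i + j + 1) := by
  rw [ch_comm i (j + 1), ch_comm i j, ch_succ_left]
  ring

theorem M_eq (i : ℕ) : ∀ j, cf (2 * j) (2 * i) (i + j) * ch i j = (-1) ^ i * b i * b j := by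
  induction i with
  | zero =>
    intro j
    rw [mul_zero, cf_zero]
    unfold b ch
    rw [zero_add, Nat.choose_zero_right, Nat.centralBinom_zero, Nat.centralBinom_eq_two_mul_choose]
    simp
  | succ i ih =>
    intro j
    have h := cf_rec (2 * j) (2 * i) (i + j)
    rw [show 2 * (i + 1) = 2 * i + 2 from by ring, show i + 1 + j = i + j + 1 from by ring, h]
    have h1 := ih (j + 1)
    have h2 := ih j
    rw [show 2 * (j + 1) = 2 * j + 2 from by ring, ← add_assoc] at h1
    have e1 := ch_succ_left i j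
    have e2 := ch_succ_right i j
    have e3 := b_succ i
    have e4 := b_succ j
    have p1 := ch_pos i j
    have p2 := ch_pos (i + 1) j
    have p3 := ch_pos i (j + 1)
    have hi : (0 : ℚ) < i + 1 := by positivity
    have hj : (0 : ℚ) < j + 1 := by positivity
    have hij : (0 : ℚ) < (i : ℚ) + j + 1 := by positivity
    set Y := cf (2 * j + 2) (2 * i) (i + j + 1) with hY
    set Z := cf (2 * j) (2 * i) (i + j) with hZ
    have e1' : ch (i + 1) j = ch i j * (i + j + 1) / (i + 1) := by
      field_simp; linarith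
    have e2' : ch i (j + 1) = ch i j * (i + j + 1) / (j + 1) := by
      field_simp; linarith
    have e3' : b (i + 1) = 2 * (2 * i + 1) * b i / (i + 1) := by
      field_simp; linarith
    have e4' : b (j + 1) = 2 * (2 * j + 1) * b j / (j + 1) := by
      field_simp; linarith
    rw [e1', e3']
    rw [e2', e4'] at h1
    have hY' : Y = (-1) ^ i * b i * (2 * (2 * j + 1) * b j) / (ch i j * (i + j + 1)) := by
      field_simp at h1 ⊢
      linarith
    have hZ' : Z = (-1) ^ i * b i * b j / ch i j := by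
      field_simp at h2 ⊢
      linarith
    rw [hY', hZ', pow_succ]
    field_simp
    ring

theorem M1_eq (i : ℕ) : ∀ j, cf (2 * j) (2 * i + 1) (i + j) = - (1 / 2) * cf (2 * j) (2 * (i + 1)) (i + j + 1) := by
  induction i with
  | zero =>
    intro j
    have h := cf_rec (2 * j) 0 j
    simp only [mul_zero, zero_add, mul_one] at h ⊢
    rw [h, cf_zero, cf_zero]
    rcases j with _ | j
    · norm_num [cf]
    · rw [cf_one]
      have h3 : (2 * (j + 1) + 2).choose (j + 1 + 1) = (2 * (j + 1)).choose j +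
        (2 * (j + 1)).choose (j + 1) + ((2 * (j + 1)).choose (j + 1) + (2 * (j + 1)).choose (j + 2)) := by
        rw [Nat.choose_succ_succ, Nat.choose_succ_succ, Nat.choose_succ_succ]
      have h4 : (2 * (j + 1)).choose (j + 2) = (2 * (j + 1)).choose j :=
        Nat.choose_symm_of_eq_add (by ring)
      rw [h3, h4]
      push_cast
      ring
  | succ i ih =>
    intro j
    have h := cf_rec (2 * j) (2 * i + 1) (i + j)
    rw [show 2 * (i + 1) + 1 = 2 * i + 1 + 2 from by ring, show i + 1 + j = i + j + 1 from by ring, h]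
    have h2 := cf_rec (2 * j) (2 * (i + 1)) (i + j + 1)
    rw [show 2 * (i + 1 + 1) = 2 * (i + 1) + 2 from by ring, h2, ih j]
    have h3 := ih (j + 1)
    rw [show i + (j + 1) = i + j + 1 from by ring, show 2 * (j + 1) = 2 * j + 2 from by ring] at h3
    rw [h3]
    ring

theorem M2_eq (i : ℕ) : ∀ j, cf (2 * j + 1) (2 * i) (i + j) = (1 / 2) * cf (2 * (j + 1)) (2 * i) (i + j + 1) := by
  induction i with
  | zero =>
    intro j
    simp only [mul_zero, zero_add]
    rw [cf_zero, cf_zero]
    have h3 : (2 * (j + 1)).choose (j + 1) = (2 * j + 1).choose j + (2 * j + 1).choose (j + 1) := by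
      rw [show 2 * (j + 1) = 2 * j + 1 + 1 from by ring, Nat.choose_succ_succ]
    have h4 : (2 * j + 1).choose (j + 1) = (2 * j + 1).choose j :=
      Nat.choose_symm_of_eq_add (by ring)
    rw [h3, h4]
    push_cast
    ring
  | succ i ih =>
    intro j
    have h := cf_rec (2 * j + 1) (2 * i) (i + j)
    rw [show 2 * (i + 1) = 2 * i + 2 from by ring, show i + 1 + j = i + j + 1 from by ring, h]
    have h2 := cf_rec (2 * (j + 1)) (2 * i) (i + j + 1)
    rw [h2, ih j]
    have h3 := ih (j + 1)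
    rw [show i + (j + 1) = i + j + 1 from by ring, show 2 * (j + 1) + 1 = 2 * j + 1 + 2 from by ring,
      show 2 * (j + 1 + 1) = 2 * (j + 1) + 2 from by ring] at h3
    rw [h3]
    ring

theorem Z_eq (i : ℕ) : ∀ j, cf (2 * j + 1) (2 * i + 1) (i + j + 1) = 0 := by
  induction i with
  | zero =>
    intro j
    rw [mul_zero, zero_add, zero_add, cf_one]
    have h4 : (2 * j + 1).choose (j + 1) = (2 * j + 1).choose j :=
      Nat.choose_symm_of_eq_add (by ring)
    rw [h4, sub_self]
  | succ i ih =>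
    intro j
    have h := cf_rec (2 * j + 1) (2 * i + 1) (i + j + 1)
    rw [show 2 * (i + 1) + 1 = 2 * i + 1 + 2 from by ring,
      show i + 1 + j + 1 = i + j + 1 + 1 from by ring, h, ih j]
    have h3 := ih (j + 1)
    rw [show i + (j + 1) + 1 = i + j + 1 + 1 from by ring,
      show 2 * (j + 1) + 1 = 2 * j + 1 + 2 from by ring] at h3
    rw [h3]
    ring

/-- the products -/
def u (p j : ℕ) : ℚ := b j * b (p - j)

theorem u_symm (p j : ℕ) (h : j ≤ p) : u p (p - j) = u p j := by
  unfold u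
  rw [show p - (p - j) = j from by omega, mul_comm]

theorem key (p j : ℕ) (h : j ≤ p) :
    (-1) ^ (p - j) * (p.choose j : ℚ) * cf (2 * j) (2 * (p - j)) p = u p j := by
  have h1 := M_eq (p - j) j
  rw [show p - j + j = p from by omega] at h1
  have h2 : ch (p - j) j = (p.choose j : ℚ) := by
    unfold ch
    rw [show p - j + j = p from by omega, Nat.choose_symm h]
  rw [h2] at h1
  calc (-1) ^ (p - j) * (p.choose j : ℚ) * cf (2 * j) (2 * (p - j)) p =
      (-1) ^ (p - j) * (cf (2 * j) (2 * (p - j)) p * (p.choose j : ℚ)) := by ring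
    _ = (-1) ^ (p - j) * (-1) ^ (p - j) * (b j * b (p - j)) := by rw [h1]; ring
    _ = u p j := by
      rw [← pow_add, ← two_mul, pow_mul]
      simp [u]

theorem fourX (p : ℕ) : (C 4 * X : ℚ[X]) ^ p = ∑ j ∈ range (p + 1),
    C ((-1) ^ (p - j) * (p.choose j : ℚ)) * ((1 + X) ^ (2 * j) * (1 - X) ^ (2 * (p - j))) := by
  have h : (C 4 * X : ℚ[X]) = (1 + X) ^ 2 + (-1) * (1 - X) ^ 2 := by
    rw [show (C (4 : ℚ)) = (4 : ℚ[X]) from rfl]
    ring
  rw [h, add_pow]
  refine Finset.sum_congr rfl fun j _ => ?_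
  rw [mul_pow, ← pow_mul, ← pow_mul]
  simp only [map_mul, map_pow, map_neg, map_one, map_natCast]
  ring

theorem sum_u (p : ℕ) : ∑ j ∈ range (p + 1), u p j = 4 ^ p := by
  have h := congrArg (fun f : ℚ[X] => f.coeff p) (fourX p)
  simp only [finsetSum_coeff, coeff_C_mul] at h
  rw [mul_pow, ← C_pow, coeff_C_mul, coeff_X_pow, if_pos rfl, mul_one] at h
  rw [h]
  refine Finset.sum_congr rfl fun j hj => ?_
  rw [mem_range] at hj
  exact (key p j (by omega)).symm

theorem sum_even {M : Type*} [AddCommMonoid M] (f : ℕ → M) (K : ℕ) (hf : ∀ k, 2 * k + 1 < K → f (2 * k + 1) = 0) :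
    ∑ k ∈ range K, f k = ∑ j ∈ range ((K + 1) / 2), f (2 * j) := by
  induction K with
  | zero => simp
  | succ K ih =>
    rw [sum_range_succ, ih (fun k hk => hf k (by omega))]
    rcases Nat.even_or_odd' K with ⟨k, rfl | rfl⟩
    · rw [show (2 * k + 1 + 1) / 2 = (2 * k + 1) / 2 + 1 from by omega, sum_range_succ,
        show 2 * ((2 * k + 1) / 2) = 2 * k from by omega]
    · rw [hf k (by omega), add_zero]
      congr 2
      omega

theorem sum_pairs {M : Type*} [AddCommMonoid M] (f : ℕ → M) (J : ℕ) :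
    ∑ k ∈ range (2 * J), f k = ∑ j ∈ range J, (f (2 * j) + f (2 * j + 1)) := by
  induction J with
  | zero => simp
  | succ J ih =>
    rw [show 2 * (J + 1) = 2 * J + 1 + 1 from by ring, sum_range_succ, sum_range_succ, ih,
      sum_range_succ, add_assoc]

end Pool.Agent.H734Az
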