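import Mathlib

namespace Pool.Agent.H734Az

open Finset

/-- The Aztec diamond of order `n`.  The cell `(x, y)` is the unit square with centre
`(x + 1/2, y + 1/2)`; it belongs to the diamond when `|x + 1/2| + |y + 1/2| ≤ n`. -/
noncomputable def aztec (n : ℕ) : Finset (ℤ × ℤ) :=
  ((Icc (-(n : ℤ)) n) ×ˢ (Icc (-(n : ℤ)) n)).filter fun p => |2 * p.1 + 1| + |2 * p.2 + 1| ≤ 2 * n

/-- The Aztec diamond of order `n` with the two unit squares centred at `(-1/2, -1/2)` and
`(1/2, 3/2)` removed. -/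
noncomputable def region (n : ℕ) : Finset (ℤ × ℤ) := aztec n \ {(-1, -1), (0, 1)}

/-- `r m = (C(2m, m) / 4 ^ m) ^ 2` -/
noncomputable def r (m : ℕ) : ℚ := ((Nat.centralBinom m : ℚ) / 4 ^ m) ^ 2

end Pool.Agent.H734Az
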