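import Pool.Agent.H734_az.Sums
import Pool.Agent.Helper848.AztecDet

namespace Pool.Agent.H734Az

open Finset Polynomial Pool.Agent.Helper848.AztecDet

theorem G_coeff_ge (n : ℕ) (γ : ℕ → ℚ) (s0 s t : ℕ) (h : s0 ≤ s) :
    (G n γ s0 s).coeff t = (-1) ^ (s - s0) * ∑ k ∈ range s0,
      γ k * cf (k + (s - s0)) (n - 1 - k - (s - s0)) t := by
  unfold G
  rw [if_neg (by omega), show ((-1) ^ (s - s0) : ℚ[X]) = C ((-1) ^ (s - s0)) by simp, coeff_C_mul,
    finsetSum_coeff]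
  simp only [coeff_C_mul]
  rfl

theorem G_coeff_lt (n : ℕ) (γ : ℕ → ℚ) (s0 s t : ℕ) (h : s < s0) :
    (G n γ s0 s).coeff t = (-1) ^ (s0 - 1 - s) * ∑ k ∈ Ico s0 (n + 1),
      γ k * cf (k + s - s0) (n + s0 - 1 - s - k) t := by
  unfold G
  rw [if_pos h, show ((-1) ^ (s0 - 1 - s) : ℚ[X]) = C ((-1) ^ (s0 - 1 - s)) by simp, coeff_C_mul,
    finsetSum_coeff]
  simp only [coeff_C_mul]
  rfl

noncomputable def ga (p k : ℕ) : ℚ := if k % 2 = 0 then (1 / 4 ^ p) * ((-1) ^ (p - k / 2) * (p.choose (k / 2) : ℚ)) else 0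

theorem ga_even (p j : ℕ) : ga p (2 * j) = (1 / 4 ^ p) * ((-1) ^ (p - j) * (p.choose j : ℚ)) := by
  unfold ga
  rw [if_pos (by omega), show 2 * j / 2 = j from by omega]

theorem ga_odd (p j : ℕ) : ga p (2 * j + 1) = 0 := by
  unfold ga
  rw [if_neg (by omega)]

theorem ga_sum (p : ℕ) : ∑ k ∈ range (2 * p + 1), C (ga p k) *
    ((1 + X) ^ k * (1 - X) ^ (2 * p - k) : ℚ[X]) = X ^ p := by
  rw [sum_even _ _ (fun k _ => by rw [ga_odd, C_0, zero_mul]), show (2 * p + 1 + 1) / 2 = p + 1 from by omega]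
  have h := fourX p
  have h2 : (X : ℚ[X]) ^ p = C (1 / 4 ^ p) * (C 4 * X) ^ p := by
    rw [mul_pow, ← mul_assoc, ← C_pow, ← C_mul]
    rw [one_div, inv_mul_cancel₀ (by positivity), C_1, one_mul]
  rw [h2, h, mul_sum]
  refine sum_congr rfl fun j hj => ?_
  rw [mem_range] at hj
  rw [ga_even, C_mul, show 2 * p - 2 * j = 2 * (p - j) from by omega]
  ring

theorem t1 (q j : ℕ) (h : j ≤ q) : ga (q + 1) (2 * j) * cf (2 * j) (2 * q + 1 - 2 * j) q =
    -(1 / 2) * (1 / 4 ^ (q + 1)) * u (q + 1) j := by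
  have h1 := M1_eq (q - j) j
  rw [show q - j + j = q from by omega, show 2 * (q - j) + 1 = 2 * q + 1 - 2 * j from by omega,
    show q - j + 1 = q + 1 - j from by omega] at h1
  rw [h1, ga_even, ← key (q + 1) j (by omega)]
  ring

theorem t2 (q j : ℕ) (h1 : 1 ≤ j) (h : j ≤ q + 1) :
    ga (q + 1) (2 * j) * cf (2 * j - 1) (2 * (q + 1) - 2 * j) q =
    (1 / 2) * (1 / 4 ^ (q + 1)) * u (q + 1) j := by
  obtain ⟨j, rfl⟩ : ∃ j', j = j' + 1 := ⟨j - 1, by omega⟩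
  have h1 := M2_eq (q - j) j
  rw [show q - j + j = q from by omega] at h1
  rw [show 2 * (j + 1) - 1 = 2 * j + 1 from by omega,
    show 2 * (q + 1) - 2 * (j + 1) = 2 * (q - j) from by omega, h1, ga_even,
    ← key (q + 1) (j + 1) (by omega), show q + 1 - (j + 1) = q - j from by omega]
  ring

theorem t3 (q j : ℕ) (h : j ≤ q) : ga (q + 1) (2 * j) * cf (2 * j + 1) (2 * q - 2 * j) q =
    -(1 / 2) * (1 / 4 ^ (q + 1)) * (u (q + 1) j * ((2 * j + 1) / (2 * ((q + 1 : ℕ) : ℚ) - 2 * j - 1))) := by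
  have h1 := M2_eq (q - j) j
  rw [show q - j + j = q from by omega] at h1
  have hk := key (q + 1) (j + 1) (by omega)
  rw [show 2 * q - 2 * j = 2 * (q - j) from by omega, h1, ga_even]
  rw [show q + 1 - (j + 1) = q - j from by omega] at hk
  obtain ⟨i, rfl⟩ : ∃ i, q = j + i := ⟨q - j, by omega⟩
  rw [show j + i - j = i from by omega] at hk ⊢
  rw [show j + i + 1 - j = i + 1 from by omega]
  have hu1 : u (j + i + 1) (j + 1) = b (j + 1) * b i := by
    unfold u; rw [show j + i + 1 - (j + 1) = i from by omega]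
  have hu2 : u (j + i + 1) j = b j * b (i + 1) := by
    unfold u; rw [show j + i + 1 - j = i + 1 from by omega]
  rw [hu1] at hk
  rw [hu2]
  rw [b_succ' j] at hk
  rw [b_succ' i]
  have hc : (((j + i + 1).choose (j + 1) : ℕ) : ℚ) * (j + 1) = ((j + i + 1).choose j : ℕ) * (i + 1) := by
    have := Nat.choose_succ_right_eq (j + i + 1) j
    rw [show j + i + 1 - j = i + 1 from by omega] at this
    exact_mod_cast this
  push_cast
  have p1 : (0 : ℚ) < (j : ℚ) + 1 := by positivity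
  have p2 : (0 : ℚ) < (i : ℚ) + 1 := by positivity
  have p3 : (0 : ℚ) < 2 * (i : ℚ) + 1 := by positivity
  have h3 : (2 * ((j : ℚ) + i + 1) - 2 * j - 1) = 2 * i + 1 := by ring
  rw [h3]
  have hc' : (((j + i + 1).choose j : ℕ) : ℚ) = ((j + i + 1).choose (j + 1) : ℕ) * (j + 1) / (i + 1) := by
    field_simp; linarith
  rw [hc', pow_succ (-1 : ℚ) i]
  have e : (1 : ℚ) / 4 ^ (j + i + 1) * ((-1) ^ i * -1 * (((j + i + 1).choose (j + 1) : ℕ) * (j + 1) / (i + 1))) *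
    (1 / 2 * cf (2 * (j + 1)) (2 * i) (j + i + 1)) =
    -(1 / 2) * (1 / 4 ^ (j + i + 1)) * ((j + 1) / (i + 1)) *
      ((-1) ^ i * ((j + i + 1).choose (j + 1) : ℕ) * cf (2 * (j + 1)) (2 * i) (j + i + 1)) := by
    ring
  rw [e, hk]
  field_simp

theorem valD (q : ℕ) : (G (2 * q + 2) (ga (q + 1)) (q + 1) (q + 1)).coeff q =
    -(1 / 2) * (1 / 4 ^ (q + 1)) * ∑ j ∈ range ((q + 2) / 2), u (q + 1) j := by
  rw [G_coeff_ge _ _ _ _ _ le_rfl, Nat.sub_self, pow_zero, one_mul,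
    sum_even _ _ (fun k _ => by rw [ga_odd, zero_mul]), mul_sum]
  refine sum_congr rfl fun j hj => ?_
  rw [mem_range] at hj
  rw [← t1 q j (by omega), add_zero, show 2 * q + 2 - 1 - 2 * j - 0 = 2 * q + 1 - 2 * j from by omega]

theorem valC (q : ℕ) : (G (2 * q + 2) (ga (q + 1)) (q + 2) (q + 2)).coeff q =
    -(1 / 2) * (1 / 4 ^ (q + 1)) * ∑ j ∈ range ((q + 3) / 2), u (q + 1) j := by
  rw [G_coeff_ge _ _ _ _ _ le_rfl, Nat.sub_self, pow_zero, one_mul,
    sum_even _ _ (fun k _ => by rw [ga_odd, zero_mul]), mul_sum]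
  refine sum_congr rfl fun j hj => ?_
  rw [mem_range] at hj
  rcases Nat.lt_or_ge q j with hlt | hle
  · exfalso; omega
  rw [← t1 q j (by omega), add_zero, show 2 * q + 2 - 1 - 2 * j - 0 = 2 * q + 1 - 2 * j from by omega]

theorem valA (q : ℕ) : (G (2 * q + 2) (ga (q + 1)) (q + 1) (q + 2)).coeff q =
    (1 / 2) * (1 / 4 ^ (q + 1)) * ∑ j ∈ range ((q + 2) / 2),
      u (q + 1) j * ((2 * j + 1) / (2 * ((q + 1 : ℕ) : ℚ) - 2 * j - 1)) := by
  rw [G_coeff_ge _ _ _ _ _ (by omega), show q + 2 - (q + 1) = 1 from by omega,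
    sum_even _ _ (fun k _ => by rw [ga_odd, zero_mul]), mul_sum, mul_sum]
  refine sum_congr rfl fun j hj => ?_
  rw [mem_range] at hj
  have h := t3 q j (by omega)
  rw [show 2 * q + 2 - 1 - 2 * j - 1 = 2 * q - 2 * j from by omega, h]
  ring

theorem valB (q : ℕ) : (G (2 * q + 2) (ga (q + 1)) (q + 2) (q + 1)).coeff q =
    (1 / 2) * (1 / 4 ^ (q + 1)) * (4 ^ (q + 1) - ∑ j ∈ range ((q + 3) / 2), u (q + 1) j) := by
  rw [G_coeff_lt _ _ _ _ _ (by omega), show q + 2 - 1 - (q + 1) = 0 from by omega, pow_zero, one_mul]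
  have h1 := Finset.sum_range_add_sum_Ico (fun k : ℕ =>
    if k = 0 then 0 else ga (q + 1) k * cf (k - 1) (2 * (q + 1) - k) q)
    (show q + 2 ≤ 2 * q + 2 + 1 by omega)
  have h2 : ∑ k ∈ Ico (q + 2) (2 * q + 2 + 1), ga (q + 1) k * cf (k + (q + 1) - (q + 2)) (2 * q + 2 + (q + 2) - 1 - (q + 1) - k) q
     = ∑ k ∈ Ico (q + 2) (2 * q + 2 + 1), (if k = 0 then 0 else ga (q + 1) k * cf (k - 1) (2 * (q + 1) - k) q) := by
    refine sum_congr rfl fun k hk => ?_
    rw [mem_Ico] at hk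
    rw [if_neg (by omega), show k + (q + 1) - (q + 2) = k - 1 from by omega,
      show 2 * q + 2 + (q + 2) - 1 - (q + 1) - k = 2 * (q + 1) - k from by omega]
  have h3 : ∀ J, J ≤ 2 * q + 2 + 1 → ∑ k ∈ range J, (if k = 0 then 0 else ga (q + 1) k * cf (k - 1) (2 * (q + 1) - k) q) =
      ∑ j ∈ range ((J + 1) / 2), if j = 0 then 0 else (1 / 2) * (1 / 4 ^ (q + 1)) * u (q + 1) j := by
    intro J hJ
    rw [sum_even _ _ (fun k _ => by rw [if_neg (by omega), ga_odd, zero_mul])]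
    refine sum_congr rfl fun j hj => ?_
    rw [mem_range] at hj
    by_cases hj0 : j = 0
    · rw [if_pos (by omega), if_pos hj0]
    · rw [if_neg (by omega), if_neg hj0, t2 q j (by omega) (by omega)]
  have h4 : ∀ J, 1 ≤ J → ∑ j ∈ range J, (if j = 0 then 0 else (1 / 2) * (1 / 4 ^ (q + 1)) * u (q + 1) j) =
      (1 / 2) * (1 / 4 ^ (q + 1)) * (∑ j ∈ range J, u (q + 1) j - u (q + 1) 0) := by
    intro J hJ
    obtain ⟨J, rfl⟩ : ∃ J', J = J' + 1 := ⟨J - 1, by omega⟩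
    rw [sum_range_succ', sum_range_succ', if_pos rfl, add_zero, add_sub_cancel_right, mul_sum]
    refine sum_congr rfl fun j _ => ?_
    rw [if_neg (by omega)]
  rw [h2]
  rw [h3 _ (by omega), h3 _ le_rfl, h4 _ (by omega), h4 _ (by omega),
    show (2 * q + 2 + 1 + 1) / 2 = q + 1 + 1 from by omega, sum_u] at h1
  rw [show (q + 2 + 1) / 2 = (q + 3) / 2 from rfl] at h1
  linarith

end Pool.Agent.H734Az
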