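import Pool.Agent.H734_az.Region

namespace Pool.Agent.H734Az

open Finset Matrix Pool.Agent.Helper848 Pool.Agent.Helper848.AztecDet

theorem K0_eq (n : ℕ) (o : O n) (x : E n) : K0 n o x =
    if ((x.2 : ℕ) = o.2 ∧ ((x.1 : ℕ) = o.1 + 1 ∨ (x.1 : ℕ) = o.1)) then 1 else
    if ((x.2 : ℕ) + 1 = o.2 ∧ (x.1 : ℕ) = o.1 + 1) then -1 else
    if ((x.2 : ℕ) + 1 = o.2 ∧ (x.1 : ℕ) = o.1) then 1 else 0 := by
  unfold K0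
  rw [Matrix.of_apply]
  by_cases h1 : (x.1 : ℕ) = o.1 + 1 <;> by_cases h2 : (x.1 : ℕ) = o.1 <;>
  by_cases h3 : (x.2 : ℕ) = o.2 <;> by_cases h4 : (x.2 : ℕ) + 1 = o.2 <;>
  first
  | omega
  | simp [h1, h2, h3, h4]

theorem sgn {k : ℕ} {P : Prop} [Decidable P] (h : k % 2 = if P then 1 else 0) :
    (if P then (-1 : ℚ) else 1) = (-1) ^ k := by
  rw [← Nat.div_add_mod k 2, pow_add, pow_mul, h]
  split_ifs <;> simp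

theorem sgn' {k : ℕ} {P : Prop} [Decidable P] (h : k % 2 = if P then 0 else 1) :
    (if P then (-1 : ℚ) else 1) = - (-1) ^ k := by
  rw [← Nat.div_add_mod k 2, pow_add, pow_mul, h]
  split_ifs <;> simp

theorem ext_iff' {a b : ℕ} (x y : Fin a × Fin b) : x = y ↔ (x.1 : ℕ) = y.1 ∧ (x.2 : ℕ) = y.2 := by
  rw [Prod.ext_iff, Fin.ext_iff, Fin.ext_iff]

/-- the criterion for the signs -/
theorem hs_of (n : ℕ) (e2 ee : E n) (o1 oe : O n) (A : O n → ℕ) (B : E n → ℕ)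
    (h1 : ∀ (o : O n) (x : E n), o ≠ o1 → x ≠ e2 → (x.2 : ℕ) = o.2 →
      ((x.1 : ℕ) = o.1 + 1 ∨ (x.1 : ℕ) = o.1) →
      (A o + B x + (n + (x.1 : ℕ) + (o.1 : ℕ) +
          (if (x.2 : ℕ) = e2.2 ∧ (x.1 : ℕ) < e2.1 then 1 else 0) +
          (if (o.2 : ℕ) = o1.2 ∧ (o1.1 : ℕ) < o.1 then 1 else 0))) % 2 =
          if ((o.1 : ℕ) = oe.1 ∧ (o.2 : ℕ) = oe.2) ∧ ((x.1 : ℕ) = ee.1 ∧ (x.2 : ℕ) = ee.2) then 1 else 0)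
    (h2 : ∀ (o : O n) (x : E n), o ≠ o1 → x ≠ e2 → (x.2 : ℕ) + 1 = o.2 → (x.1 : ℕ) = o.1 + 1 →
      ¬ (o = oe ∧ x = ee) ∧ (A o + B x) % 2 = 1)
    (h3 : ∀ (o : O n) (x : E n), o ≠ o1 → x ≠ e2 → (x.2 : ℕ) + 1 = o.2 → (x.1 : ℕ) = o.1 →
      (A o + B x) % 2 =
          if ((o.1 : ℕ) = oe.1 ∧ (o.2 : ℕ) = oe.2) ∧ ((x.1 : ℕ) = ee.1 ∧ (x.2 : ℕ) = ee.2) then 1 else 0)
    (h4 : (ee.2 : ℕ) = oe.2 ∧ ((ee.1 : ℕ) = oe.1 + 1 ∨ (ee.1 : ℕ) = oe.1) ∨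
      (ee.2 : ℕ) + 1 = oe.2 ∧ ((ee.1 : ℕ) = oe.1)) :
    ∀ o x, o ≠ o1 → x ≠ e2 → (if o = oe ∧ x = ee then (-1 : ℚ) else K0 n o x) =
      (-1) ^ (A o) * (-1) ^ (B x) * (kast (Rg n e2 o1) (cellO n o) (cellE n x) : ℚ) := by
  intro o x ho hx
  rw [kast_formula, K0_eq, ← pow_add]
  by_cases c1 : ((x.2 : ℕ) = o.2 ∧ ((x.1 : ℕ) = o.1 + 1 ∨ (x.1 : ℕ) = o.1))
  · rw [if_pos c1, if_pos c1]
    have := h1 o x ho hx c1.1 c1.2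
    push_cast
    rw [← pow_add, ← sgn this]
    simp only [ext_iff']
  · rw [if_neg c1, if_neg c1]
    by_cases c2 : ((x.2 : ℕ) + 1 = o.2 ∧ (x.1 : ℕ) = o.1 + 1)
    · obtain ⟨h5, h6⟩ := h2 o x ho hx c2.1 c2.2
      rw [if_pos c2, if_neg h5, if_pos ⟨c2.1, Or.inl c2.2⟩, ← Nat.div_add_mod (A o + B x) 2, pow_add,
        pow_mul, h6]
      simp
    · rw [if_neg c2]
      by_cases c3 : ((x.2 : ℕ) + 1 = o.2 ∧ (x.1 : ℕ) = o.1)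
      · have c4 : ((x.2 : ℕ) + 1 = o.2 ∧ ((x.1 : ℕ) = o.1 + 1 ∨ (x.1 : ℕ) = o.1)) := by omega
        rw [if_pos c3, if_pos c4]
        have := h3 o x ho hx c3.1 c3.2
        rw [← sgn this]
        simp only [ext_iff', Int.cast_one, mul_one]
      · have c4 : ¬ ((x.2 : ℕ) + 1 = o.2 ∧ ((x.1 : ℕ) = o.1 + 1 ∨ (x.1 : ℕ) = o.1)) := by omega
        have c5 : ¬ (o = oe ∧ x = ee) := by
          rintro ⟨rfl, rfl⟩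
          omega
        rw [if_neg c3, if_neg c4, if_neg c5]
        simp

/-- the criterion for the signs, with explicit coordinates -/
theorem hs_of' (n : ℕ) (e2 ee : E n) (o1 oe : O n) (A : O n → ℕ) (B : E n → ℕ)
    (s2 t2 se te a1 b1 ae be : ℕ)
    (v1 : (e2.1 : ℕ) = s2) (v2 : (e2.2 : ℕ) = t2) (v3 : (ee.1 : ℕ) = se) (v4 : (ee.2 : ℕ) = te)
    (v5 : (o1.1 : ℕ) = a1) (v6 : (o1.2 : ℕ) = b1) (v7 : (oe.1 : ℕ) = ae) (v8 : (oe.2 : ℕ) = be)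
    (h1 : ∀ (o : O n) (x : E n), ¬ ((o.1 : ℕ) = a1 ∧ (o.2 : ℕ) = b1) →
      ¬ ((x.1 : ℕ) = s2 ∧ (x.2 : ℕ) = t2) → (x.2 : ℕ) = o.2 →
      ((x.1 : ℕ) = o.1 + 1 ∨ (x.1 : ℕ) = o.1) →
      (A o + B x + (n + (x.1 : ℕ) + (o.1 : ℕ) +
          (if (x.2 : ℕ) = t2 ∧ (x.1 : ℕ) < s2 then 1 else 0) +
          (if (o.2 : ℕ) = b1 ∧ a1 < (o.1 : ℕ) then 1 else 0))) % 2 =
          if ((o.1 : ℕ) = ae ∧ (o.2 : ℕ) = be) ∧ ((x.1 : ℕ) = se ∧ (x.2 : ℕ) = te) then 1 else 0)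
    (h2 : ∀ (o : O n) (x : E n), ¬ ((o.1 : ℕ) = a1 ∧ (o.2 : ℕ) = b1) →
      ¬ ((x.1 : ℕ) = s2 ∧ (x.2 : ℕ) = t2) → (x.2 : ℕ) + 1 = o.2 → (x.1 : ℕ) = o.1 + 1 →
      ¬ (((o.1 : ℕ) = ae ∧ (o.2 : ℕ) = be) ∧ ((x.1 : ℕ) = se ∧ (x.2 : ℕ) = te)) ∧ (A o + B x) % 2 = 1)
    (h3 : ∀ (o : O n) (x : E n), ¬ ((o.1 : ℕ) = a1 ∧ (o.2 : ℕ) = b1) →
      ¬ ((x.1 : ℕ) = s2 ∧ (x.2 : ℕ) = t2) → (x.2 : ℕ) + 1 = o.2 → (x.1 : ℕ) = o.1 →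
      (A o + B x) % 2 =
          if ((o.1 : ℕ) = ae ∧ (o.2 : ℕ) = be) ∧ ((x.1 : ℕ) = se ∧ (x.2 : ℕ) = te) then 1 else 0)
    (h4 : te = be ∧ (se = ae + 1 ∨ se = ae) ∨ te + 1 = be ∧ se = ae) :
    ∀ o x, o ≠ o1 → x ≠ e2 → (if o = oe ∧ x = ee then (-1 : ℚ) else K0 n o x) =
      (-1) ^ (A o) * (-1) ^ (B x) * (kast (Rg n e2 o1) (cellO n o) (cellE n x) : ℚ) := by
  subst v1 v2 v3 v4 v5 v6 v7 v8
  apply hs_of n e2 ee o1 oe A B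
  · intro o x ho hx
    rw [ne_eq, ext_iff'] at ho hx
    exact h1 o x ho hx
  · intro o x ho hx
    rw [ne_eq, ext_iff'] at ho hx
    rw [ext_iff', ext_iff']
    exact h2 o x ho hx
  · intro o x ho hx
    rw [ne_eq, ext_iff'] at ho hx
    exact h3 o x ho hx
  · exact h4

theorem exists_phi (n : ℕ) (e2 : E n) (o1 : O n) :
    Nonempty ({x : E n // x ≠ e2} ≃ {o : O n // o ≠ o1}) := by
  apply Fintype.card_eq.mp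
  rw [Fintype.card_subtype_compl, Fintype.card_subtype_compl, Fintype.card_subtype_eq,
    Fintype.card_subtype_eq, Fintype.card_prod, Fintype.card_prod, mul_comm]

/-- The number of tilings in terms of the polynomials `G`. -/
theorem numTilings_G (N : ℕ) (e2 ee : E (N + 1)) (o1 oe : O (N + 1)) (A : O (N + 1) → ℕ)
    (B : E (N + 1) → ℕ) (γ : ℕ → ℚ)
    (hs : ∀ o x, o ≠ o1 → x ≠ e2 → (if o = oe ∧ x = ee then (-1 : ℚ) else K0 (N + 1) o x) =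
      (-1) ^ (A o) * (-1) ^ (B x) * (kast (Rg (N + 1) e2 o1) (cellO (N + 1) o) (cellE (N + 1) x) : ℚ))
    (hne : ee ≠ e2) (hκ : K0 (N + 1) oe ee = 1) (ht : (oe.2 : ℕ) = o1.2)
    (hγ : ∑ k ∈ Finset.range (N + 1 + 1), Polynomial.C (γ k) *
      ((1 + Polynomial.X) ^ k * (1 - Polynomial.X) ^ (N + 1 - k) : Polynomial ℚ) =
        Polynomial.X ^ (o1.2 : ℕ)) :
    (numTilings (Rg (N + 1) e2 o1) : ℚ) = 2 ^ ((N + 1) * (N + 2) / 2) *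
      |(G (N + 1) γ (o1.1 + 1) e2.1).coeff e2.2 * (1 - 2 * (G (N + 1) γ (oe.1 + 1) ee.1).coeff ee.2) +
        2 * ((G (N + 1) γ (oe.1 + 1) e2.1).coeff e2.2 * (G (N + 1) γ (o1.1 + 1) ee.1).coeff ee.2)| := by
  obtain ⟨φ⟩ := exists_phi (N + 1) e2 o1
  rw [numTilings_Rg (N + 1) e2 ee o1 oe A B hs φ]
  obtain ⟨e, he⟩ := abs_det_minor (K0 (N + 1))
    (fun x => (G (N + 1) γ (o1.1 + 1) x.1).coeff x.2)
    (fun x => (G (N + 1) γ (oe.1 + 1) x.1).coeff x.2) o1 oe e2 ee hne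
    (fun o => by
      rw [K0_G (N + 1) γ (o1.1 + 1) o1.2 (by omega) (by have := o1.1.2; omega) hγ o]
      simp only [ext_iff']
      congr 1
      simp)
    (fun o => by
      rw [K0_G (N + 1) γ (oe.1 + 1) o1.2 (by omega) (by have := oe.1.2; omega) hγ o]
      simp only [ext_iff', ht]
      congr 1
      simp) hκ φ
  rw [he, abs_det_K0]

end Pool.Agent.H734Az
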