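import Pool.Agent.H734_az.OddPart
import Pool.Agent.H734_az.Gauge

namespace Pool.Agent.H734Az

open Finset Matrix Pool.Agent.Helper848 Pool.Agent.Helper848.AztecDet

section even

def ev_e2 (q : ℕ) : E (2 * q + 1 + 1) := (⟨q + 2, by omega⟩, ⟨q, by omega⟩)
def ev_ee (q : ℕ) : E (2 * q + 1 + 1) := (⟨q + 1, by omega⟩, ⟨q, by omega⟩)
def ev_o1 (q : ℕ) : O (2 * q + 1 + 1) := (⟨q, by omega⟩, ⟨q + 1, by omega⟩)
def ev_oe (q : ℕ) : O (2 * q + 1 + 1) := (⟨q + 1, by omega⟩, ⟨q + 1, by omega⟩)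

theorem region_even (q : ℕ) : region (2 * q + 2) = Rg (2 * q + 1 + 1) (ev_e2 q) (ev_o1 q) := by
  have h1 : cellE (2 * q + 1 + 1) (ev_e2 q) = (0, 1) := by
    unfold cellE ev_e2
    ext <;> simp only <;> push_cast <;> ring
  have h2 : cellO (2 * q + 1 + 1) (ev_o1 q) = (-1, -1) := by
    unfold cellO ev_o1
    ext <;> simp only <;> push_cast <;> ring
  unfold region Rg
  rw [h1, h2, pair_comm]

theorem hs_even (q : ℕ) : ∀ (o : O (2 * q + 1 + 1)) (x : E (2 * q + 1 + 1)), o ≠ ev_o1 q → x ≠ ev_e2 q →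
    (if o = ev_oe q ∧ x = ev_ee q then (-1 : ℚ) else K0 (2 * q + 1 + 1) o x) =
      (-1) ^ ((o.1 : ℕ) + (if (o.2 : ℕ) = q + 1 ∧ q + 1 ≤ (o.1 : ℕ) then 1 else 0) +
        (if (o.2 : ℕ) < q + 1 then 1 else 0)) *
      (-1) ^ ((x.1 : ℕ) + (if (x.2 : ℕ) = q ∧ (x.1 : ℕ) < q + 2 then 1 else 0) +
        (if (x.2 : ℕ) ≤ q then 1 else 0)) *
      (kast (Rg (2 * q + 1 + 1) (ev_e2 q) (ev_o1 q)) (cellO (2 * q + 1 + 1) o) (cellE (2 * q + 1 + 1) x) : ℚ) := by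
  apply hs_of' (2 * q + 1 + 1) (ev_e2 q) (ev_ee q) (ev_o1 q) (ev_oe q)
    (fun o => (o.1 : ℕ) + (if (o.2 : ℕ) = q + 1 ∧ q + 1 ≤ (o.1 : ℕ) then 1 else 0) +
        (if (o.2 : ℕ) < q + 1 then 1 else 0))
    (fun x => (x.1 : ℕ) + (if (x.2 : ℕ) = q ∧ (x.1 : ℕ) < q + 2 then 1 else 0) +
        (if (x.2 : ℕ) ≤ q then 1 else 0)) (q + 2) q (q + 1) q q (q + 1) (q + 1) (q + 1)
    rfl rfl rfl rfl rfl rfl rfl rfl
  · intro o x ho hx h1 h2
    split_ifs <;> omega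
  · intro o x ho hx h1 h2
    split_ifs <;> omega
  · intro o x ho hx h1 h2
    split_ifs <;> omega
  · omega

theorem tilings_even (q : ℕ) : (numTilings (region (2 * q + 2)) : ℚ) =
    2 ^ ((2 * q + 2) * (2 * q + 3) / 2) *
      |(G (2 * q + 2) (ga (q + 1)) (q + 1) (q + 2)).coeff q *
        (1 - 2 * (G (2 * q + 2) (ga (q + 1)) (q + 2) (q + 1)).coeff q) +
       2 * ((G (2 * q + 2) (ga (q + 1)) (q + 2) (q + 2)).coeff q *
        (G (2 * q + 2) (ga (q + 1)) (q + 1) (q + 1)).coeff q)| := by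
  rw [region_even]
  have h := numTilings_G (2 * q + 1) (ev_e2 q) (ev_ee q) (ev_o1 q) (ev_oe q) _ _ (ga (q + 1))
    (hs_even q)
    (by rw [ne_eq, ext_iff']; simp [ev_ee, ev_e2])
    (by rw [K0_eq]; simp [ev_ee, ev_oe])
    (by simp [ev_oe, ev_o1])
    (by
      have := ga_sum (q + 1)
      rw [show 2 * (q + 1) = 2 * q + 1 + 1 from by ring] at this
      exact this)
  exact h

end even

section odd

def od_e2 (q : ℕ) : E (2 * q + 2 + 1) := (⟨q + 1, by omega⟩, ⟨q + 1, by omega⟩)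
def od_ee (q : ℕ) : E (2 * q + 2 + 1) := (⟨q + 2, by omega⟩, ⟨q + 1, by omega⟩)
def od_o1 (q : ℕ) : O (2 * q + 2 + 1) := (⟨q + 2, by omega⟩, ⟨q + 1, by omega⟩)
def od_oe (q : ℕ) : O (2 * q + 2 + 1) := (⟨q + 1, by omega⟩, ⟨q + 1, by omega⟩)

theorem region_odd (q : ℕ) : region (2 * q + 3) = Rg (2 * q + 2 + 1) (od_e2 q) (od_o1 q) := by
  have h1 : cellE (2 * q + 2 + 1) (od_e2 q) = (-1, -1) := by
    unfold cellE od_e2
    ext <;> simp only <;> push_cast <;> ring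
  have h2 : cellO (2 * q + 2 + 1) (od_o1 q) = (0, 1) := by
    unfold cellO od_o1
    ext <;> simp only <;> push_cast <;> ring
  unfold region Rg
  rw [h1, h2]

theorem hs_odd (q : ℕ) : ∀ (o : O (2 * q + 2 + 1)) (x : E (2 * q + 2 + 1)), o ≠ od_o1 q → x ≠ od_e2 q →
    (if o = od_oe q ∧ x = od_ee q then (-1 : ℚ) else K0 (2 * q + 2 + 1) o x) =
      (-1) ^ ((o.1 : ℕ) + (o.2 : ℕ) + (if (o.2 : ℕ) ≤ q + 1 then 1 else 0)) *
      (-1) ^ ((x.1 : ℕ) + (x.2 : ℕ) + 1 + (if (x.2 : ℕ) < q + 1 then 1 else 0)) *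
      (kast (Rg (2 * q + 2 + 1) (od_e2 q) (od_o1 q)) (cellO (2 * q + 2 + 1) o) (cellE (2 * q + 2 + 1) x) : ℚ) := by
  apply hs_of' (2 * q + 2 + 1) (od_e2 q) (od_ee q) (od_o1 q) (od_oe q)
    (fun o => (o.1 : ℕ) + (o.2 : ℕ) + (if (o.2 : ℕ) ≤ q + 1 then 1 else 0))
    (fun x => (x.1 : ℕ) + (x.2 : ℕ) + 1 + (if (x.2 : ℕ) < q + 1 then 1 else 0))
    (q + 1) (q + 1) (q + 2) (q + 1) (q + 2) (q + 1) (q + 1) (q + 1)
    rfl rfl rfl rfl rfl rfl rfl rfl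
  · intro o x ho hx h1 h2
    split_ifs <;> omega
  · intro o x ho hx h1 h2
    split_ifs <;> omega
  · intro o x ho hx h1 h2
    split_ifs <;> omega
  · omega

theorem tilings_odd (q : ℕ) : (numTilings (region (2 * q + 3)) : ℚ) =
    2 ^ ((2 * q + 3) * (2 * q + 4) / 2) *
      |(G (2 * (q + 1) + 1) (gb (q + 1)) (q + 1 + 2) (q + 1)).coeff (q + 1) *
        (1 - 2 * (G (2 * (q + 1) + 1) (gb (q + 1)) (q + 1 + 1) (q + 1 + 1)).coeff (q + 1)) +
       2 * ((G (2 * (q + 1) + 1) (gb (q + 1)) (q + 1 + 1) (q + 1)).coeff (q + 1) *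
        (G (2 * (q + 1) + 1) (gb (q + 1)) (q + 1 + 2) (q + 1 + 1)).coeff (q + 1))| := by
  rw [region_odd]
  have h := numTilings_G (2 * q + 2) (od_e2 q) (od_ee q) (od_o1 q) (od_oe q) _ _ (gb (q + 1))
    (hs_odd q)
    (by rw [ne_eq, ext_iff']; simp [od_ee, od_e2])
    (by rw [K0_eq]; simp [od_ee, od_oe])
    (by simp [od_oe, od_o1])
    (by
      have := gb_sum (q + 1)
      rw [show 2 * (q + 1) = 2 * q + 2 from by ring] at this
      exact this)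
  exact h

end odd

theorem r_eq (m : ℕ) : r m = b m ^ 2 / 4 ^ (2 * m) := by
  unfold r b
  rw [div_pow, ← pow_mul, mul_comm m 2]

theorem r_pos (m : ℕ) : 0 < r m := by
  rw [r_eq]
  have := b_pos m
  positivity

theorem r_le_one (m : ℕ) : r m ≤ 1 := by
  rw [r_eq, div_le_one (by positivity)]
  have h := half_even m
  have h2 : 0 ≤ ∑ j ∈ range m, u (2 * m) j := sum_nonneg fun j _ => by
    unfold u
    exact (mul_pos (b_pos _) (b_pos _)).le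
  linarith

theorem T0 (m : ℕ) (hm : 1 ≤ m) : (numTilings (region (4 * m)) : ℚ) =
    2 ^ ((4 * m) * (4 * m + 1) / 2) * (m * r m * (1 + r m) / 2) := by
  obtain ⟨q, hq⟩ : ∃ q, 4 * m = 2 * q + 2 := ⟨2 * m - 1, by omega⟩
  have hq1 : q + 1 = 2 * m := by omega
  rw [hq, tilings_even, show 2 * q + 2 + 1 = 2 * q + 3 from rfl, valA, valB, valC, valD, hq1,
    show (q + 2) / 2 = m from by omega, show (q + 3) / 2 = m + 1 from by omega]
  congr 1
  have h1 := tele1 (2 * m) m (by omega)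
  have h2 := half_even m
  have hu : u (2 * m) m = b m ^ 2 := by
    unfold u
    rw [show 2 * m - m = m from by omega]
    ring
  rw [h1, sum_range_succ, hu]
  have h3 : b m ^ 2 = r m * 4 ^ (2 * m) := by
    rw [r_eq]; field_simp
  rw [h3] at h2 ⊢
  have h4 : ∑ j ∈ range m, u (2 * m) j = (1 - r m) * 4 ^ (2 * m) / 2 := by linarith
  rw [h4]
  have h5 : (0 : ℚ) < 4 ^ (2 * m) := by positivity
  rw [abs_of_nonneg]
  · field_simp
    ring
  · have hr := r_pos m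
    have : (1 / 2 * (1 / 4 ^ (2 * m)) * (2 * ↑m * (r m * 4 ^ (2 * m)) - (1 - r m) * 4 ^ (2 * m) / 2) *
          (1 - 2 * (1 / 2 * (1 / 4 ^ (2 * m)) * (4 ^ (2 * m) - ((1 - r m) * 4 ^ (2 * m) / 2 + r m * 4 ^ (2 * m))))) +
        2 *
          (-(1 / 2) * (1 / 4 ^ (2 * m)) * ((1 - r m) * 4 ^ (2 * m) / 2 + r m * 4 ^ (2 * m)) *
            (-(1 / 2) * (1 / 4 ^ (2 * m)) * ((1 - r m) * 4 ^ (2 * m) / 2)))) = m * r m * (1 + r m) / 2 := by
      field_simp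
      ring
    rw [this]
    positivity

theorem T2 (m : ℕ) : (numTilings (region (4 * m + 2)) : ℚ) =
    2 ^ ((4 * m + 2) * (4 * m + 3) / 2) * ((2 * m + 1) * r m / 4) := by
  rw [show 4 * m + 2 = 2 * (2 * m) + 2 from by ring, tilings_even,
    show 4 * m + 3 = 2 * (2 * m) + 3 from by ring, valA, valB, valC, valD,
    show (2 * m + 2) / 2 = m + 1 from by omega, show (2 * m + 3) / 2 = m + 1 from by omega]
  congr 1
  have h1 := tele1 (2 * m + 1) (m + 1) (by omega)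
  have h2 := half_odd m
  have hu : u (2 * m + 1) (m + 1) = b (m + 1) * b m := by
    unfold u
    rw [show 2 * m + 1 - (m + 1) = m from by omega]
  rw [h1, hu]
  have h4 : ∑ j ∈ range (m + 1), u (2 * m + 1) j = 4 ^ (2 * m + 1) / 2 := by linarith
  rw [h4]
  have h3 : b m ^ 2 = r m * 4 ^ (2 * m) := by
    rw [r_eq]; field_simp
  have h6 : 2 * ((m + 1 : ℕ) : ℚ) * (b (m + 1) * b m) = r m * 4 ^ (2 * m + 1) * (2 * m + 1) := by
    have := b_succ m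
    push_cast
    calc 2 * ((m : ℚ) + 1) * (b (m + 1) * b m) = 2 * (((m : ℚ) + 1) * b (m + 1)) * b m := by ring
      _ = 4 * (2 * m + 1) * b m ^ 2 := by rw [this]; ring
      _ = _ := by rw [h3, pow_succ]; ring
  rw [h6]
  have h5 : (0 : ℚ) < 4 ^ (2 * m + 1) := by positivity
  have : (1 / 2 * (1 / 4 ^ (2 * m + 1)) * (r m * 4 ^ (2 * m + 1) * (2 * ↑m + 1) - 4 ^ (2 * m + 1) / 2) *
        (1 - 2 * (1 / 2 * (1 / 4 ^ (2 * m + 1)) * (4 ^ (2 * m + 1) - 4 ^ (2 * m + 1) / 2))) +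
      2 * (-(1 / 2) * (1 / 4 ^ (2 * m + 1)) * (4 ^ (2 * m + 1) / 2) *
          (-(1 / 2) * (1 / 4 ^ (2 * m + 1)) * (4 ^ (2 * m + 1) / 2)))) = (2 * m + 1) * r m / 4 := by
    generalize (4 : ℚ) ^ (2 * m + 1) = Q at h5
    field_simp
    ring
  rw [this, abs_of_nonneg]
  have hr := r_pos m
  positivity

theorem T1 (m : ℕ) (hm : 1 ≤ m) : (numTilings (region (4 * m + 1)) : ℚ) =
    2 ^ ((4 * m + 1) * (4 * m + 2) / 2) * ((2 * m + 1) * r m * (1 - r m) / 4) := by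
  obtain ⟨q, hq⟩ : ∃ q, 4 * m + 1 = 2 * q + 3 := ⟨2 * m - 1, by omega⟩
  have hq1 : q + 1 = 2 * m := by omega
  rw [hq, show 4 * m + 2 = 2 * q + 4 from by omega, tilings_odd, valA' _ (by omega), valB', valC',
    valD' _ (by omega), hq1, show (2 * m + 2) / 2 = m + 1 from by omega,
    show (2 * m + 1) / 2 = m from by omega]
  congr 1
  have h1 := tele2 (2 * m) m (by omega)
  have h2 := half_even m
  have hu : u (2 * m) m = b m ^ 2 := by
    unfold u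
    rw [show 2 * m - m = m from by omega]
    ring
  have i1 := Finset.sum_range_add_sum_Ico (fun j : ℕ => u (2 * m) j) (show m ≤ 2 * m + 1 by omega)
  have i2 := Finset.sum_range_add_sum_Ico (fun j : ℕ => u (2 * m) j) (show m + 1 ≤ 2 * m + 1 by omega)
  rw [sum_u] at i1 i2
  rw [sum_range_succ, hu] at i2
  rw [h1, sum_range_succ, hu]
  have h3 : b m ^ 2 = r m * 4 ^ (2 * m) := by
    rw [r_eq]; field_simp
  rw [h3] at h2 i2 ⊢
  have h4 : ∑ j ∈ range m, u (2 * m) j = (1 - r m) * 4 ^ (2 * m) / 2 := by linarith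
  rw [h4] at i1 i2 ⊢
  have h7 : ∑ j ∈ Ico m (2 * m + 1), u (2 * m) j = (1 + r m) * 4 ^ (2 * m) / 2 := by linarith
  have h8 : ∑ j ∈ Ico (m + 1) (2 * m + 1), u (2 * m) j = (1 - r m) * 4 ^ (2 * m) / 2 := by linarith
  rw [h7, h8]
  have h6 : ((2 * m : ℕ) + 1 - m : ℚ) * b (2 * m + 1 - m) * b m / 2 = r m * 4 ^ (2 * m) * (2 * m + 1) := by
    have := b_succ m
    rw [show 2 * m + 1 - m = m + 1 from by omega]
    push_cast
    calc (2 * (m : ℚ) + 1 - m) * b (m + 1) * b m / 2 = ((m + 1) * b (m + 1)) * b m / 2 := by ring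
      _ = (2 * m + 1) * b m ^ 2 := by rw [this]; ring
      _ = _ := by rw [h3]; ring
  rw [h6]
  have h5 : (0 : ℚ) < 4 ^ (2 * m) := by positivity
  have : (1 / 2 * (1 / 4 ^ (2 * m)) * (r m * 4 ^ (2 * m) * (2 * ↑m + 1) - (1 + r m) * 4 ^ (2 * m) / 2) *
        (1 - 2 * (1 / 2 * (1 / 4 ^ (2 * m)) * ((1 - r m) * 4 ^ (2 * m) / 2 + r m * 4 ^ (2 * m)))) +
      2 * (1 / 2 * (1 / 4 ^ (2 * m)) * ((1 + r m) * 4 ^ (2 * m) / 2) *
          (1 / 2 * (1 / 4 ^ (2 * m)) * ((1 - r m) * 4 ^ (2 * m) / 2)))) = (2 * m + 1) * r m * (1 - r m) / 4 := by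
    generalize (4 : ℚ) ^ (2 * m) = Q at h5
    field_simp
    ring
  rw [this, abs_of_nonneg]
  have hr := r_pos m
  have hr1 : 0 ≤ 1 - r m := by linarith [r_le_one m]
  positivity

theorem T3 (m : ℕ) : (numTilings (region (4 * m + 3)) : ℚ) =
    2 ^ ((4 * m + 3) * (4 * m + 4) / 2) * ((m + 1) * r (m + 1) / 2) := by
  rw [show 4 * m + 3 = 2 * (2 * m) + 3 from by ring, tilings_odd,
    show 4 * m + 4 = 2 * (2 * m) + 4 from by ring, valA' _ (by omega), valB', valC', valD' _ (by omega),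
    show (2 * m + 1 + 2) / 2 = m + 1 from by omega, show (2 * m + 1 + 1) / 2 = m + 1 from by omega]
  congr 1
  have h1 := tele2 (2 * m + 1) (m + 1) (by omega)
  have h2 := half_odd m
  have i1 := Finset.sum_range_add_sum_Ico (fun j : ℕ => u (2 * m + 1) j) (show m + 1 ≤ 2 * m + 1 + 1 by omega)
  rw [sum_u] at i1
  rw [h1]
  have h4 : ∑ j ∈ range (m + 1), u (2 * m + 1) j = 4 ^ (2 * m + 1) / 2 := by linarith
  rw [h4] at i1 ⊢
  have h7 : ∑ j ∈ Ico (m + 1) (2 * m + 1 + 1), u (2 * m + 1) j = 4 ^ (2 * m + 1) / 2 := by linarith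
  rw [h7]
  have h3 : b (m + 1) ^ 2 = r (m + 1) * 4 ^ (2 * (m + 1)) := by
    rw [r_eq]; field_simp
  have h6 : ((2 * m + 1 : ℕ) + 1 - (m + 1 : ℕ) : ℚ) * b (2 * m + 1 + 1 - (m + 1)) * b (m + 1) / 2 =
      2 * (m + 1) * r (m + 1) * 4 ^ (2 * m + 1) := by
    rw [show 2 * m + 1 + 1 - (m + 1) = m + 1 from by omega]
    push_cast
    calc (2 * (m : ℚ) + 1 + 1 - (m + 1)) * b (m + 1) * b (m + 1) / 2 = (m + 1) * b (m + 1) ^ 2 / 2 := by ring
      _ = _ := by rw [h3, show 2 * (m + 1) = 2 * m + 1 + 1 from by ring, pow_succ]; ring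
  rw [h6]
  have h5 : (0 : ℚ) < 4 ^ (2 * m + 1) := by positivity
  have : (1 / 2 * (1 / 4 ^ (2 * m + 1)) * (2 * (↑m + 1) * r (m + 1) * 4 ^ (2 * m + 1) - 4 ^ (2 * m + 1) / 2) *
        (1 - 2 * (1 / 2 * (1 / 4 ^ (2 * m + 1)) * (4 ^ (2 * m + 1) / 2))) +
      2 * (1 / 2 * (1 / 4 ^ (2 * m + 1)) * (4 ^ (2 * m + 1) / 2) *
          (1 / 2 * (1 / 4 ^ (2 * m + 1)) * (4 ^ (2 * m + 1) / 2)))) = (m + 1) * r (m + 1) / 2 := by
    generalize (4 : ℚ) ^ (2 * m + 1) = Q at h5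
    field_simp
    ring
  rw [this, abs_of_nonneg]
  have hr := r_pos (m + 1)
  positivity

end Pool.Agent.H734Az
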