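import Pool.Agent.H734_az.EvenPart

namespace Pool.Agent.H734Az

open Finset Polynomial Pool.Agent.Helper848.AztecDet

noncomputable def gb (p k : ℕ) : ℚ := (1 / (2 * 4 ^ p)) * ((-1) ^ (p - k / 2) * (p.choose (k / 2) : ℚ))

theorem gb_even (p j : ℕ) : gb p (2 * j) = (1 / (2 * 4 ^ p)) * ((-1) ^ (p - j) * (p.choose j : ℚ)) := by
  unfold gb
  rw [show 2 * j / 2 = j from by omega]

theorem gb_odd (p j : ℕ) : gb p (2 * j + 1) = (1 / (2 * 4 ^ p)) * ((-1) ^ (p - j) * (p.choose j : ℚ)) := by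
  unfold gb
  rw [show (2 * j + 1) / 2 = j from by omega]

theorem gb_sum (p : ℕ) : ∑ k ∈ range (2 * p + 1 + 1), C (gb p k) *
    ((1 + X) ^ k * (1 - X) ^ (2 * p + 1 - k) : ℚ[X]) = X ^ p := by
  rw [show 2 * p + 1 + 1 = 2 * (p + 1) from by ring, sum_pairs]
  have h := fourX p
  have h2 : (X : ℚ[X]) ^ p = C (1 / 4 ^ p) * (C 4 * X) ^ p := by
    rw [mul_pow, ← mul_assoc, ← C_pow, ← C_mul]
    rw [one_div, inv_mul_cancel₀ (by positivity), C_1, one_mul]
  rw [h2, h, mul_sum]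
  refine sum_congr rfl fun j hj => ?_
  rw [mem_range] at hj
  have h3 : (C (1 / 4 ^ p) : ℚ[X]) = C (1 / (2 * 4 ^ p)) * 2 := by
    rw [show (2 : ℚ[X]) = C 2 from rfl, ← C_mul]
    congr 1
    field_simp
  rw [gb_even, gb_odd, C_mul, show 2 * p + 1 - 2 * j = 2 * (p - j) + 1 from by omega,
    show 2 * p + 1 - (2 * j + 1) = 2 * (p - j) from by omega, h3]
  ring

theorem cf_odd_zero (p k : ℕ) (h : 2 * k + 1 ≤ 2 * p) : cf (2 * k + 1) (2 * p - (2 * k + 1)) p = 0 := by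
  have h1 := Z_eq (p - k - 1) k
  rw [show 2 * (p - k - 1) + 1 = 2 * p - (2 * k + 1) from by omega,
    show p - k - 1 + k + 1 = p from by omega] at h1
  exact h1

theorem s1 (p j : ℕ) (h : j ≤ p) : gb p (2 * j) * cf (2 * j) (2 * p - 2 * j) p =
    (1 / 2) * (1 / 4 ^ p) * u p j := by
  rw [gb_even, ← key p j h, show 2 * p - 2 * j = 2 * (p - j) from by omega]
  field_simp

theorem s2 (p j : ℕ) (h : j ≤ p) : gb p (2 * j + 1) * cf (2 * j) (2 * p - 2 * j) p =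
    (1 / 2) * (1 / 4 ^ p) * u p j := by
  rw [gb_odd, ← key p j h, show 2 * p - 2 * j = 2 * (p - j) from by omega]
  field_simp

theorem s3 (p j : ℕ) (h : j ≤ p) : gb p (2 * j + 2) * cf (2 * j) (2 * p - 2 * j) p =
    -(1 / 2) * (1 / 4 ^ p) * (u p j * ((p - j) / (j + 1))) := by
  rcases Nat.eq_or_lt_of_le h with rfl | hlt
  · rw [show 2 * j + 2 = 2 * (j + 1) from by ring, gb_even]
    simp
  · obtain ⟨i, rfl⟩ : ∃ i, p = j + 1 + i := ⟨p - j - 1, by omega⟩
    rw [show 2 * j + 2 = 2 * (j + 1) from by ring, gb_even, ← key (j + 1 + i) j h,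
      show 2 * (j + 1 + i) - 2 * j = 2 * (j + 1 + i - j) from by omega,
      show j + 1 + i - j = i + 1 from by omega, show j + 1 + i - (j + 1) = i from by omega]
    have hc : (((j + 1 + i).choose (j + 1) : ℕ) : ℚ) * (j + 1) = ((j + 1 + i).choose j : ℕ) * (i + 1) := by
      have := Nat.choose_succ_right_eq (j + 1 + i) j
      rw [show j + 1 + i - j = i + 1 from by omega] at this
      exact_mod_cast this
    have p1 : (0 : ℚ) < (j : ℚ) + 1 := by positivity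
    have p2 : (0 : ℚ) < (i : ℚ) + 1 := by positivity
    have hc' : (((j + 1 + i).choose (j + 1) : ℕ) : ℚ) = ((j + 1 + i).choose j : ℕ) * (i + 1) / (j + 1) := by
      field_simp; linarith
    rw [hc', pow_succ (-1 : ℚ) i]
    push_cast
    have h5 : ((j : ℚ) + 1 + i - j) = i + 1 := by ring
    rw [h5]
    field_simp

theorem Ico_even (p J K : ℕ) (f : ℕ → ℚ) (g : ℕ → ℚ) (hJK : J ≤ K) (hK : K ≤ 2 * p + 1)
    (hf : ∀ j, j ≤ p → f (2 * j) * cf (2 * j) (2 * p - 2 * j) p = g j) :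
    ∑ k ∈ Ico J K, f k * cf k (2 * p - k) p = ∑ j ∈ Ico ((J + 1) / 2) ((K + 1) / 2), g j := by
  have h3 : ∀ J, J ≤ 2 * p + 1 → ∑ k ∈ range J, f k * cf k (2 * p - k) p =
      ∑ j ∈ range ((J + 1) / 2), g j := by
    intro J hJ
    rw [sum_even _ _ (fun k _ => by rw [cf_odd_zero p k (by omega), mul_zero])]
    refine sum_congr rfl fun j hj => ?_
    rw [mem_range] at hj
    rw [hf j (by omega)]
  have h1 := Finset.sum_range_add_sum_Ico (fun k : ℕ => f k * cf k (2 * p - k) p) hJK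
  have h2 := Finset.sum_range_add_sum_Ico g (show (J + 1) / 2 ≤ (K + 1) / 2 by omega)
  rw [h3 J (by omega), h3 K hK] at h1
  linarith

theorem valB' (p : ℕ) : (G (2 * p + 1) (gb p) (p + 1) (p + 1)).coeff p =
    (1 / 2) * (1 / 4 ^ p) * ∑ j ∈ range ((p + 2) / 2), u p j := by
  rw [G_coeff_ge _ _ _ _ _ le_rfl, Nat.sub_self, pow_zero, one_mul]
  have h := Ico_even p 0 (p + 1) (gb p) (fun j => (1 / 2) * (1 / 4 ^ p) * u p j) (by omega) (by omega)
    (fun j hj => s1 p j hj)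
  rw [show (0 + 1) / 2 = 0 from rfl, ← range_eq_Ico, ← range_eq_Ico, ← mul_sum] at h
  rw [show (p + 1 + 1) / 2 = (p + 2) / 2 from rfl] at h
  rw [← h]
  refine sum_congr rfl fun k _ => ?_
  rw [add_zero, show 2 * p + 1 - 1 - k - 0 = 2 * p - k from by omega]

theorem valC' (p : ℕ) : (G (2 * p + 1) (gb p) (p + 1) p).coeff p =
    (1 / 2) * (1 / 4 ^ p) * ∑ j ∈ Ico ((p + 1) / 2) (p + 1), u p j := by
  rw [G_coeff_lt _ _ _ _ _ (by omega), show p + 1 - 1 - p = 0 from by omega, pow_zero, one_mul]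
  have h := Ico_even p p (2 * p + 1) (fun k => gb p (k + 1)) (fun j => (1 / 2) * (1 / 4 ^ p) * u p j)
    (by omega) (by omega) (fun j hj => s2 p j hj)
  rw [← mul_sum, show (2 * p + 1 + 1) / 2 = p + 1 from by omega] at h
  rw [← h, ← sum_Ico_add' (fun k : ℕ => gb p k * cf (k + p - (p + 1)) (2 * p + 1 + (p + 1) - 1 - p - k) p) p (2 * p + 1) 1]
  refine sum_congr rfl fun k _ => ?_
  rw [show k + 1 + p - (p + 1) = k from by omega,
    show 2 * p + 1 + (p + 1) - 1 - p - (k + 1) = 2 * p - k from by omega]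

theorem valD' (p : ℕ) (hp : 1 ≤ p) : (G (2 * p + 1) (gb p) (p + 2) (p + 1)).coeff p =
    (1 / 2) * (1 / 4 ^ p) * ∑ j ∈ Ico ((p + 2) / 2) (p + 1), u p j := by
  rw [G_coeff_lt _ _ _ _ _ (by omega), show p + 2 - 1 - (p + 1) = 0 from by omega, pow_zero, one_mul]
  have h := Ico_even p (p + 1) (2 * p + 1) (fun k => gb p (k + 1)) (fun j => (1 / 2) * (1 / 4 ^ p) * u p j)
    (by omega) (by omega) (fun j hj => s2 p j hj)
  rw [← mul_sum, show (2 * p + 1 + 1) / 2 = p + 1 from by omega] at h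
  rw [show (p + 1 + 1) / 2 = (p + 2) / 2 from rfl] at h
  rw [← h, ← sum_Ico_add' (fun k : ℕ => gb p k * cf (k + (p + 1) - (p + 2)) (2 * p + 1 + (p + 2) - 1 - (p + 1) - k) p) (p + 1) (2 * p + 1) 1]
  refine sum_congr rfl fun k _ => ?_
  rw [show k + 1 + (p + 1) - (p + 2) = k from by omega,
    show 2 * p + 1 + (p + 2) - 1 - (p + 1) - (k + 1) = 2 * p - k from by omega]

theorem valA' (p : ℕ) (hp : 1 ≤ p) : (G (2 * p + 1) (gb p) (p + 2) p).coeff p =
    (1 / 2) * (1 / 4 ^ p) * ∑ j ∈ Ico ((p + 1) / 2) (p + 1), u p j * ((p - j) / (j + 1)) := by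
  rw [G_coeff_lt _ _ _ _ _ (by omega), show p + 2 - 1 - p = 1 from by omega, pow_one]
  have h := Ico_even p p (2 * p) (fun k => gb p (k + 2))
    (fun j => -(1 / 2) * (1 / 4 ^ p) * (u p j * ((p - j) / (j + 1))))
    (by omega) (by omega) (fun j hj => s3 p j hj)
  have h0 : ∑ j ∈ Ico ((p + 1) / 2) (p + 1), u p j * (((p : ℚ) - j) / (j + 1)) =
      ∑ j ∈ Ico ((p + 1) / 2) p, u p j * (((p : ℚ) - j) / (j + 1)) := by
    rw [Finset.sum_Ico_succ_top (by omega)]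
    simp
  rw [← mul_sum, show (2 * p + 1) / 2 = p from by omega, ← h0] at h
  have h2 : ∑ k ∈ Ico (p + 2) (2 * p + 1 + 1), gb p k * cf (k + p - (p + 2)) (2 * p + 1 + (p + 2) - 1 - p - k) p =
      ∑ k ∈ Ico p (2 * p), gb p (k + 2) * cf k (2 * p - k) p := by
    rw [show 2 * p + 1 + 1 = 2 * p + 2 from rfl]
    rw [← sum_Ico_add' (fun k : ℕ => gb p k * cf (k + p - (p + 2)) (2 * p + 1 + (p + 2) - 1 - p - k) p) p (2 * p) 2]
    refine sum_congr rfl fun k _ => ?_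
    rw [show k + 2 + p - (p + 2) = k from by omega,
      show 2 * p + 1 + (p + 2) - 1 - p - (k + 2) = 2 * p - k from by omega]
  rw [h2, h]
  ring

end Pool.Agent.H734Az
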