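import Pool.Agent.H734_az.Defs
import Pool.Agent.Helper848.Kast
import Pool.Agent.Helper848.AztecDet

namespace Pool.Agent.H734Az

open Finset Matrix Pool.Agent.Helper848 Pool.Agent.Helper848.AztecDet

theorem Corner_npc {a b : ℕ} (h : a % 2 = b % 2) : (-1 : ℤ) ^ a = (-1) ^ b := by
  rw [← Nat.div_add_mod a 2, ← Nat.div_add_mod b 2, pow_add, pow_add, pow_mul, pow_mul, h]
  simp

theorem mem_aztec (n : ℕ) (p : ℤ × ℤ) : p ∈ aztec n ↔
    (-(n : ℤ) ≤ p.1 + p.2 + 1 ∧ p.1 + p.2 + 1 ≤ n) ∧ (-(n : ℤ) ≤ p.1 - p.2 ∧ p.1 - p.2 ≤ n) := by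
  unfold aztec
  rw [mem_filter, mem_product, mem_Icc, mem_Icc]
  rcases abs_cases (2 * p.1 + 1) with ⟨h1, h1'⟩ | ⟨h1, h1'⟩ <;>
  rcases abs_cases (2 * p.2 + 1) with ⟨h2, h2'⟩ | ⟨h2, h2'⟩ <;> rw [h1, h2] <;> omega

def cellE (n : ℕ) (x : E n) : ℤ × ℤ := ((x.1 : ℤ) + x.2 - n, (x.1 : ℤ) - x.2 - 1)

def cellO (n : ℕ) (o : O n) : ℤ × ℤ := ((o.1 : ℤ) + o.2 - n, (o.1 : ℤ) - o.2)

theorem cellE_inj (n : ℕ) : Function.Injective (cellE n) := by
  rintro ⟨s, t⟩ ⟨s', t'⟩ h
  unfold cellE at h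
  rw [Prod.mk.injEq] at h
  simp only at h
  ext <;> simp only <;> omega

theorem cellO_inj (n : ℕ) : Function.Injective (cellO n) := by
  rintro ⟨s, t⟩ ⟨s', t'⟩ h
  unfold cellO at h
  rw [Prod.mk.injEq] at h
  simp only at h
  ext <;> simp only <;> omega

theorem exists_cellE (n : ℕ) (p : ℤ × ℤ) : (∃ x, cellE n x = p) ↔
    p ∈ aztec n ∧ Even (p.1 + p.2 + (n + 1)) := by
  rw [mem_aztec, Int.even_iff]
  constructor
  · rintro ⟨⟨s, t⟩, rfl⟩
    have hs := s.2
    have ht := t.2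
    unfold cellE
    simp only
    omega
  · rintro ⟨h1, h2⟩
    refine ⟨(⟨((p.1 + p.2 + 1 + n) / 2).toNat, by omega⟩, ⟨((p.1 - p.2 - 1 + n) / 2).toNat, by omega⟩), ?_⟩
    unfold cellE
    ext <;> simp only <;> omega

theorem exists_cellO (n : ℕ) (p : ℤ × ℤ) : (∃ x, cellO n x = p) ↔
    p ∈ aztec n ∧ ¬ Even (p.1 + p.2 + (n + 1)) := by
  rw [mem_aztec, Int.even_iff]
  constructor
  · rintro ⟨⟨s, t⟩, rfl⟩
    have hs := s.2
    have ht := t.2
    unfold cellO
    simp only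
    omega
  · rintro ⟨h1, h2⟩
    refine ⟨(⟨((p.1 + p.2 + n) / 2).toNat, by omega⟩, ⟨((p.1 - p.2 + n) / 2).toNat, by omega⟩), ?_⟩
    unfold cellO
    ext <;> simp only <;> omega

/-- the diamond with one cell of each colour removed -/
noncomputable def Rg (n : ℕ) (e2 : E n) (o1 : O n) : Finset (ℤ × ℤ) := aztec n \ {cellE n e2, cellO n o1}

theorem cellE_ne_cellO (n : ℕ) (x : E n) (o : O n) : cellE n x ≠ cellO n o := by
  intro h
  unfold cellE cellO at h
  rw [Prod.mk.injEq] at h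
  omega

theorem above_Rg (n : ℕ) (e2 : E n) (o1 : O n) (x : E n) :
    above (Rg n e2 o1) (cellE n x) + (if (x.2 : ℕ) = e2.2 ∧ (x.1 : ℕ) < e2.1 then 1 else 0) =
      n - x.1 := by
  have h : ((aztec n).filter fun q => q.2 - q.1 = (cellE n x).2 - (cellE n x).1 ∧
      (cellE n x).1 < q.1) =
      (range (n - x.1)).image fun k : ℕ => ((x.1 : ℤ) + 1 + k + x.2 - n, (x.1 : ℤ) + 1 + k - x.2 - 1) := by
    ext q
    rw [mem_filter, mem_aztec, mem_image]
    simp only [mem_range, cellE]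
    have hs := x.1.2
    have ht := x.2.2
    constructor
    · rintro ⟨h1, h2, h3⟩
      refine ⟨(q.1 - (x.1 + 1 + x.2 - n)).toNat, ?_, ?_⟩
      · omega
      · ext
        · simp only; omega
        · simp only; omega
    · rintro ⟨k, hk, rfl⟩
      simp only
      omega
  have hc : ((aztec n).filter fun q => q.2 - q.1 = (cellE n x).2 - (cellE n x).1 ∧
      (cellE n x).1 < q.1).card = n - x.1 := by
    rw [h, card_image_of_injective, card_range]
    intro a b hab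
    simp only [Prod.mk.injEq] at hab
    omega
  have h2 : ((Rg n e2 o1).filter fun q => q.2 - q.1 = (cellE n x).2 - (cellE n x).1 ∧
      (cellE n x).1 < q.1) = ((aztec n).filter fun q => q.2 - q.1 = (cellE n x).2 - (cellE n x).1 ∧
      (cellE n x).1 < q.1).erase (cellE n e2) := by
    ext q
    rw [mem_filter, mem_erase, mem_filter, Rg, mem_sdiff, mem_insert, mem_singleton]
    constructor
    · rintro ⟨⟨h1, h2⟩, h3⟩
      exact ⟨fun h => h2 (Or.inl h), h1, h3⟩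
    · rintro ⟨h1, h2, h3⟩
      refine ⟨⟨h2, ?_⟩, h3⟩
      rintro (h4 | h4)
      · exact h1 h4
      · subst h4
        have := h3.1
        unfold cellE cellO at this
        simp only at this
        omega
  unfold above
  rw [h2]
  have hmem : cellE n e2 ∈ ((aztec n).filter fun q => q.2 - q.1 = (cellE n x).2 - (cellE n x).1 ∧
      (cellE n x).1 < q.1) ↔ (x.2 : ℕ) = e2.2 ∧ (x.1 : ℕ) < e2.1 := by
    rw [mem_filter, and_iff_right ((exists_cellE n _).mp ⟨e2, rfl⟩).1]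
    unfold cellE
    simp only
    omega
  by_cases hm : (x.2 : ℕ) = e2.2 ∧ (x.1 : ℕ) < e2.1
  · rw [if_pos hm, card_erase_of_mem (hmem.mpr hm), hc]
    have := e2.1.2
    omega
  · rw [if_neg hm, erase_eq_of_notMem (fun h => hm (hmem.mp h)), hc]
    rfl

theorem below_Rg (n : ℕ) (e2 : E n) (o1 : O n) (o : O n) :
    below (Rg n e2 o1) (cellO n o) + (if (o.2 : ℕ) = o1.2 ∧ (o1.1 : ℕ) < o.1 then 1 else 0) =
      o.1 := by
  have h : ((aztec n).filter fun q => q.2 - q.1 = (cellO n o).2 - (cellO n o).1 ∧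
      q.1 < (cellO n o).1) =
      (range o.1).image fun k : ℕ => ((k : ℤ) + o.2 - n, (k : ℤ) - o.2) := by
    ext q
    rw [mem_filter, mem_aztec, mem_image]
    simp only [mem_range, cellO]
    have hs := o.1.2
    have ht := o.2.2
    constructor
    · rintro ⟨h1, h2, h3⟩
      refine ⟨(q.1 - (o.2 - n)).toNat, ?_, ?_⟩
      · omega
      · ext
        · simp only; omega
        · simp only; omega
    · rintro ⟨k, hk, rfl⟩
      simp only
      omega
  have hc : ((aztec n).filter fun q => q.2 - q.1 = (cellO n o).2 - (cellO n o).1 ∧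
      q.1 < (cellO n o).1).card = o.1 := by
    rw [h, card_image_of_injective, card_range]
    intro a b hab
    simp only [Prod.mk.injEq] at hab
    omega
  have h2 : ((Rg n e2 o1).filter fun q => q.2 - q.1 = (cellO n o).2 - (cellO n o).1 ∧
      q.1 < (cellO n o).1) = ((aztec n).filter fun q => q.2 - q.1 = (cellO n o).2 - (cellO n o).1 ∧
      q.1 < (cellO n o).1).erase (cellO n o1) := by
    ext q
    rw [mem_filter, mem_erase, mem_filter, Rg, mem_sdiff, mem_insert, mem_singleton]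
    constructor
    · rintro ⟨⟨h1, h2⟩, h3⟩
      exact ⟨fun h => h2 (Or.inr h), h1, h3⟩
    · rintro ⟨h1, h2, h3⟩
      refine ⟨⟨h2, ?_⟩, h3⟩
      rintro (h4 | h4)
      · subst h4
        have := h3.1
        unfold cellE cellO at this
        simp only at this
        omega
      · exact h1 h4
  unfold below
  rw [h2]
  have hmem : cellO n o1 ∈ ((aztec n).filter fun q => q.2 - q.1 = (cellO n o).2 - (cellO n o).1 ∧
      q.1 < (cellO n o).1) ↔ (o.2 : ℕ) = o1.2 ∧ (o1.1 : ℕ) < o.1 := by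
    rw [mem_filter, and_iff_right ((exists_cellO n _).mp ⟨o1, rfl⟩).1]
    unfold cellO
    simp only
    omega
  by_cases hm : (o.2 : ℕ) = o1.2 ∧ (o1.1 : ℕ) < o.1
  · rw [if_pos hm, card_erase_of_mem (hmem.mpr hm), hc]
    omega
  · rw [if_neg hm, erase_eq_of_notMem (fun h => hm (hmem.mp h)), hc]
    rfl

/-- Kasteleyn's theorem for the diamond with one cell of each colour removed -/
theorem numTilings_Rg (n : ℕ) (e2 ee : E n) (o1 oe : O n) (A : O n → ℕ) (B : E n → ℕ)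
    (hs : ∀ o x, o ≠ o1 → x ≠ e2 → (if o = oe ∧ x = ee then (-1 : ℚ) else K0 n o x) =
      (-1) ^ (A o) * (-1) ^ (B x) * (kast (Rg n e2 o1) (cellO n o) (cellE n x) : ℚ))
    (φ : {x : E n // x ≠ e2} ≃ {o : O n // o ≠ o1}) :
    (numTilings (Rg n e2 o1) : ℚ) = |(Matrix.of fun i j : {x : E n // x ≠ e2} =>
      if (φ i : O n) = oe ∧ (j : E n) = ee then -1 else K0 n (φ i) j).det| := by
  let M : Matrix {x : E n // x ≠ e2} {x : E n // x ≠ e2} ℤ := Matrix.of fun i j =>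
    (((-1 : ℤˣ) ^ (A (φ i)) : ℤˣ) : ℤ) * (((-1 : ℤˣ) ^ (B j) : ℤˣ) : ℤ) *
      kast (Rg n e2 o1) (cellO n (φ i)) (cellE n j)
  have h := numTilings_eq (n + 1) (Rg n e2 o1) (fun i : {x : E n // x ≠ e2} => cellE n i)
    (fun i : {x : E n // x ≠ e2} => cellO n (φ i))
    (fun i j hij => Subtype.ext (cellE_inj n hij))
    (fun i j hij => φ.injective (Subtype.ext (cellO_inj n hij)))
    (by
      intro p
      rw [Rg, mem_sdiff, mem_insert, mem_singleton]
      constructor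
      · rintro ⟨i, rfl⟩
        have h1 := (exists_cellE n _).mp ⟨i.1, rfl⟩
        refine ⟨⟨h1.1, ?_⟩, h1.2⟩
        rintro (h2 | h2)
        · exact i.2 (cellE_inj n h2)
        · exact cellE_ne_cellO n _ _ h2
      · rintro ⟨⟨h1, h2⟩, h3⟩
        obtain ⟨x, rfl⟩ := (exists_cellE n _).mpr ⟨h1, h3⟩
        refine ⟨⟨x, ?_⟩, rfl⟩
        rintro rfl
        exact h2 (Or.inl rfl))
    (by
      intro p
      rw [Rg, mem_sdiff, mem_insert, mem_singleton]
      constructor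
      · rintro ⟨i, rfl⟩
        have h1 := (exists_cellO n _).mp ⟨(φ i).1, rfl⟩
        refine ⟨⟨h1.1, ?_⟩, h1.2⟩
        rintro (h2 | h2)
        · exact cellE_ne_cellO n _ _ h2.symm
        · exact (φ i).2 (cellO_inj n h2)
      · rintro ⟨⟨h1, h2⟩, h3⟩
        obtain ⟨x, rfl⟩ := (exists_cellO n _).mpr ⟨h1, h3⟩
        refine ⟨φ.symm ⟨x, ?_⟩, ?_⟩
        · rintro rfl
          exact h2 (Or.inr rfl)
        · simp)
    (fun i => (-1) ^ (A (φ i))) (fun j => (-1) ^ (B j)) M (fun i j => rfl)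
  have h3 : M.map (Int.cast : ℤ → ℚ) = Matrix.of fun i j : {x : E n // x ≠ e2} =>
      if (φ i : O n) = oe ∧ (j : E n) = ee then -1 else K0 n (φ i) j := by
    ext i j
    simp only [Matrix.map_apply, Matrix.of_apply, M]
    rw [hs (φ i) j (φ i).2 j.2]
    push_cast
    ring
  rw [← h3, h]
  have h4 : (M.map (Int.cast : ℤ → ℚ)).det = ((M.det : ℤ) : ℚ) := by
    have := (Int.castRingHom ℚ).map_det M
    simpa using this.symm
  rw [h4, Nat.cast_natAbs, Int.cast_abs]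

theorem kast_formula (n : ℕ) (e2 : E n) (o1 o : O n) (x : E n) :
    kast (Rg n e2 o1) (cellO n o) (cellE n x) =
      if ((x.2 : ℕ) = o.2 ∧ ((x.1 : ℕ) = o.1 + 1 ∨ (x.1 : ℕ) = o.1)) then
        (-1) ^ (n + (x.1 : ℕ) + (o.1 : ℕ) +
          (if (x.2 : ℕ) = e2.2 ∧ (x.1 : ℕ) < e2.1 then 1 else 0) +
          (if (o.2 : ℕ) = o1.2 ∧ (o1.1 : ℕ) < o.1 then 1 else 0)) else
      if ((x.2 : ℕ) + 1 = o.2 ∧ ((x.1 : ℕ) = o.1 + 1 ∨ (x.1 : ℕ) = o.1)) then 1 else 0 := by
  have hx := x.1.2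
  have ha := above_Rg n e2 o1 x
  have hb := below_Rg n e2 o1 o
  unfold kast
  by_cases h1 : ((x.2 : ℕ) = o.2 ∧ ((x.1 : ℕ) = o.1 + 1 ∨ (x.1 : ℕ) = o.1))
  · rw [if_pos h1, if_pos, if_pos]
    · apply Corner_npc
      split_ifs at ha hb ⊢ <;> omega
    · unfold cellE cellO; simp only; omega
    · unfold Adj cellE cellO; simp only; omega
  · rw [if_neg h1]
    by_cases h2 : ((x.2 : ℕ) + 1 = o.2 ∧ ((x.1 : ℕ) = o.1 + 1 ∨ (x.1 : ℕ) = o.1))
    · rw [if_pos h2, if_pos, if_neg]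
      · unfold cellE cellO; simp only; omega
      · unfold Adj cellE cellO; simp only; omega
    · rw [if_neg h2, if_neg]
      unfold Adj cellE cellO; simp only; omega

end Pool.Agent.H734Az
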