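import Pool.Agent.H734_az.Coef

namespace Pool.Agent.H734Az

open Finset

theorem b_succ' (j : ℕ) : b (j + 1) = 2 * (2 * j + 1) * b j / (j + 1) := by
  have := b_succ j
  have h : (0 : ℚ) < j + 1 := by positivity
  field_simp
  linarith

/-- telescoping sum for even order -/
theorem tele1 (p : ℕ) (J : ℕ) (hJ : J ≤ p) :
    ∑ j ∈ range J, u p j * ((2 * j + 1) / (2 * p - 2 * j - 1)) = 2 * J * u p J - ∑ j ∈ range J, u p j := by
  induction J with
  | zero => simp
  | succ J ih =>
    rw [sum_range_succ, sum_range_succ, ih (by omega)]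
    obtain ⟨i, rfl⟩ : ∃ i, p = J + 1 + i := ⟨p - J - 1, by omega⟩
    have hu : u (J + 1 + i) (J + 1) = b (J + 1) * b i := by
      unfold u; rw [show J + 1 + i - (J + 1) = i from by omega]
    have hu2 : u (J + 1 + i) J = b J * b (i + 1) := by
      unfold u; rw [show J + 1 + i - J = i + 1 from by omega]
    rw [hu, hu2, b_succ' J, b_succ' i]
    push_cast
    have h1 : (0 : ℚ) < (J : ℚ) + 1 := by positivity
    have h2 : (0 : ℚ) < (i : ℚ) + 1 := by positivity
    have h3 : (2 * ((J : ℚ) + 1 + i) - 2 * J - 1) = 2 * i + 1 := by ring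
    rw [h3]
    have h4 : (0 : ℚ) < 2 * (i : ℚ) + 1 := by positivity
    field_simp
    ring

theorem tele2_aux (p : ℕ) (J : ℕ) (hJ : J ≤ p + 1) :
    ∑ j ∈ range J, (u p j * ((p - j) / (j + 1)) + u p j) =
      (p + 1) * b (p + 1) * b 0 / 2 - (p + 1 - J) * b (p + 1 - J) * b J / 2 := by
  induction J with
  | zero => simp
  | succ J ih =>
    rw [sum_range_succ, ih (by omega)]
    obtain ⟨i, rfl⟩ : ∃ i, p = J + i := ⟨p - J, by omega⟩
    have hu2 : u (J + i) J = b J * b i := by
      unfold u; rw [show J + i - J = i from by omega]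
    rw [hu2, b_succ' J, show J + i + 1 - J = i + 1 from by omega,
      show J + i + 1 - (J + 1) = i from by omega, b_succ' i]
    push_cast
    have h1 : (0 : ℚ) < (J : ℚ) + 1 := by positivity
    have h2 : (0 : ℚ) < (i : ℚ) + 1 := by positivity
    have h3 : ((J : ℚ) + i + 1 - J) = i + 1 := by ring
    have h4 : ((J : ℚ) + i + 1 - (J + 1)) = i := by ring
    have h5 : ((J : ℚ) + i - J) = i := by ring
    rw [h3, h4, h5]
    field_simp
    ring

/-- telescoping sum for odd order -/
theorem tele2 (p : ℕ) (J : ℕ) (hJ : J ≤ p + 1) :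
    ∑ j ∈ Ico J (p + 1), u p j * ((p - j) / (j + 1)) =
      (p + 1 - J) * b (p + 1 - J) * b J / 2 - ∑ j ∈ Ico J (p + 1), u p j := by
  have h1 := tele2_aux p J hJ
  have h2 := tele2_aux p (p + 1) le_rfl
  have h3 := Finset.sum_range_add_sum_Ico (fun j : ℕ => u p j * (((p : ℚ) - j) / (j + 1)) + u p j) hJ
  rw [h1, h2, sum_add_distrib] at h3
  push_cast at h3
  linarith

/-- half sums -/
theorem half_even (m : ℕ) : 2 * ∑ j ∈ range m, u (2 * m) j + b m ^ 2 = 4 ^ (2 * m) := by
  rw [← sum_u (2 * m), show 2 * m + 1 = m + 1 + m from by ring, sum_range_add, sum_range_succ]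
  have h : ∑ x ∈ range m, u (2 * m) (m + 1 + x) = ∑ j ∈ range m, u (2 * m) j := by
    rw [← sum_range_reflect]
    refine sum_congr rfl fun j hj => ?_
    rw [mem_range] at hj
    rw [← u_symm (2 * m) j (by omega)]
    congr 1
    omega
  rw [h]
  have h2 : u (2 * m) m = b m ^ 2 := by
    unfold u
    rw [show 2 * m - m = m from by omega]
    ring
  rw [h2]
  ring

theorem half_odd (m : ℕ) : 2 * ∑ j ∈ range (m + 1), u (2 * m + 1) j = 4 ^ (2 * m + 1) := by
  rw [← sum_u (2 * m + 1), show 2 * m + 1 + 1 = (m + 1) + (m + 1) from by ring,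
    sum_range_add _ (m + 1) (m + 1)]
  have h : ∑ x ∈ range (m + 1), u (2 * m + 1) (m + 1 + x) = ∑ j ∈ range (m + 1), u (2 * m + 1) j := by
    rw [← sum_range_reflect]
    refine sum_congr rfl fun j hj => ?_
    rw [mem_range] at hj
    rw [← u_symm (2 * m + 1) j (by omega)]
    congr 1
    omega
  rw [h]
  ring

end Pool.Agent.H734Az
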